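import Pool.Agent.helper60.RF.SpecB

set_option autoImplicit false

/-!
# RF, row LOC: the local structure at a prime above `l`, `l ∤ n`
-/

namespace Pool.Agent.RF

open NumberField

/-- the combinatorial part -/
lemma LOC_omega (x₀ x₁ x₂ x₃ y₀ y₁ : ℕ) (h1 : x₀ + x₂ = 2 * y₀ + y₁) (h2 : x₁ + x₃ = 2 * y₁ + y₀)
    (h3 : y₀ ≤ x₀ + x₃) (h4 : y₁ ≤ x₁ + x₀) (h5 : y₀ ≤ x₂ + x₁) (h6 : y₁ ≤ x₃ + x₂)
    (h7 : y₀ = 0 ∧ y₁ = 0 ∨
      ((0 < y₀ ∧ y₁ = 0 ∨ y₀ = 0 ∧ 0 < y₁) ∧ (x₀ = 0 ∨ x₂ = 0) ∧ (x₁ = 0 ∨ x₃ = 0))) :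
    ∃ c₀ c₁ c₂ c₃ : ℕ, y₀ = c₀ + c₂ ∧ y₁ = c₁ + c₃ ∧
    x₀ = c₁ + 2 * c₂ ∧ x₁ = c₂ + 2 * c₃ ∧ x₂ = c₃ + 2 * c₀ ∧ x₃ = c₀ + 2 * c₁ := by
  rcases h7 with ⟨h, h'⟩ | ⟨h | h, ha | ha, hb⟩
  · exact ⟨0, 0, 0, 0, by omega, by omega, by omega, by omega, by omega, by omega⟩
  · exact ⟨y₀, 0, 0, 0, by omega, by omega, by omega, by omega, by omega, by omega⟩
  · exact ⟨0, 0, y₀, 0, by omega, by omega, by omega, by omega, by omega, by omega⟩
  · exact ⟨0, 0, 0, y₁, by omega, by omega, by omega, by omega, by omega, by omega⟩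
  · exact ⟨0, y₁, 0, 0, by omega, by omega, by omega, by omega, by omega, by omega⟩

theorem LOC (h1 : OCP_stmt) (h2 : TID_stmt) (h3 : VVM_stmt) : LOC_stmt := by
  intro D₀ F _ _ C p f hp hD l P hl hP hlP hP0 hln
  obtain ⟨hT1, hT2, hT3, hθ, hσ4⟩ := h2 D₀ F C p f hp hD
  obtain ⟨hV1, hV2, hV3⟩ := h3 F P hP hP0
  set t := th C f p with ht
  have hinj : Function.Injective C.σ := C.σ.injective
  have hσ0 : ∀ x : 𝓞 F, x ≠ 0 → C.σ x ≠ 0 := fun x hx h => hx (by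
    rw [← map_zero C.σ] at h
    exact hinj h)
  have ht1 : C.σ t ≠ 0 := hσ0 _ hθ
  have ht2 : C.σ (C.σ t) ≠ 0 := hσ0 _ ht1
  have ht3 : C.σ (C.σ (C.σ t)) ≠ 0 := hσ0 _ ht2
  have hss : star (star p.n) = p.n := star_star p.n
  -- nonzero
  have hnn : C.ι (p.n ^ 2 * star p.n) ≠ 0 := by
    rw [← hT1]
    exact mul_ne_zero hθ ht2
  have hn0 : C.ι p.n ≠ 0 := by
    intro h
    apply hnn
    rw [map_mul, map_pow, h]
    simp
  have hn1 : C.ι (star p.n) ≠ 0 := by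
    intro h
    apply hnn
    rw [map_mul, h, mul_zero]
  -- relation 1
  have hR1 : vv P t + vv P (C.σ (C.σ t)) = 2 * vv P (C.ι p.n) + vv P (C.ι (star p.n)) := by
    rw [← hV1 _ _ hθ ht2, hT1, map_mul, map_pow, pow_two,
      hV1 _ _ (mul_ne_zero hn0 hn0) hn1, hV1 _ _ hn0 hn0]
    ring
  have hT1' : C.σ t * C.σ (C.σ (C.σ t)) = C.ι (star p.n ^ 2 * p.n) := by
    rw [← map_mul, hT1, C.σι, star_mul, star_pow, hss, mul_comm]
  have hR2 : vv P (C.σ t) + vv P (C.σ (C.σ (C.σ t))) =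
      2 * vv P (C.ι (star p.n)) + vv P (C.ι p.n) := by
    rw [← hV1 _ _ ht1 ht3, hT1', map_mul, map_pow, pow_two,
      hV1 _ _ (mul_ne_zero hn1 hn1) hn0, hV1 _ _ hn1 hn1]
    ring
  -- divisibility
  have hD0 := hT2
  have hD1 : C.ι (star p.n) ∣ C.σ t * t := by
    have := map_dvd C.σ hT2
    rwa [C.σι, map_mul, hσ4] at this
  have hD2 : C.ι p.n ∣ C.σ (C.σ t) * C.σ t := by
    have := map_dvd C.σ hD1
    rwa [C.σι, map_mul, hss] at this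
  have hD3 : C.ι (star p.n) ∣ C.σ (C.σ (C.σ t)) * C.σ (C.σ t) := by
    have := map_dvd C.σ hD2
    rwa [C.σι, map_mul] at this
  have hR3 : vv P (C.ι p.n) ≤ vv P t + vv P (C.σ (C.σ (C.σ t))) := by
    rw [← hV1 _ _ hθ ht3]
    exact hV3 _ _ (mul_ne_zero hθ ht3) hD0
  have hR4 : vv P (C.ι (star p.n)) ≤ vv P (C.σ t) + vv P t := by
    rw [← hV1 _ _ ht1 hθ]
    exact hV3 _ _ (mul_ne_zero ht1 hθ) hD1
  have hR5 : vv P (C.ι p.n) ≤ vv P (C.σ (C.σ t)) + vv P (C.σ t) := by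
    rw [← hV1 _ _ ht2 ht1]
    exact hV3 _ _ (mul_ne_zero ht2 ht1) hD2
  have hR6 : vv P (C.ι (star p.n)) ≤ vv P (C.σ (C.σ (C.σ t))) + vv P (C.σ (C.σ t)) := by
    rw [← hV1 _ _ ht3 ht2]
    exact hV3 _ _ (mul_ne_zero ht3 ht2) hD3
  -- valuations zero
  have hz : ∀ x : 𝓞 F, x ≠ 0 → x ∉ P → vv P x = 0 := by
    intro x hx hxP
    by_contra h
    exact hxP ((hV2 x hx).1 (Nat.pos_of_ne_zero h))
  have hmain : vv P (C.ι p.n) = 0 ∧ vv P (C.ι (star p.n)) = 0 ∨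
      ((0 < vv P (C.ι p.n) ∧ vv P (C.ι (star p.n)) = 0 ∨
        vv P (C.ι p.n) = 0 ∧ 0 < vv P (C.ι (star p.n))) ∧
        (vv P t = 0 ∨ vv P (C.σ (C.σ t)) = 0) ∧
        (vv P (C.σ t) = 0 ∨ vv P (C.σ (C.σ (C.σ t))) = 0)) := by
    by_cases hcase : C.ι p.n ∈ P ∨ C.ι (star p.n) ∈ P
    · right
      haveI : P.IsPrime := hP
      have hPc : (P.comap C.ι).IsPrime := Ideal.IsPrime.comap C.ι
      have hlc : (l : OO) ∈ P.comap C.ι := by
        rw [Ideal.mem_comap, map_natCast]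
        exact hlP
      obtain ⟨ha, hb, hc, -⟩ := h1 p hp l (P.comap C.ι) hl hPc hlc hln hcase
      rw [Ideal.mem_comap] at hb hc
      have ha' : ¬ (C.ι p.n ∈ P ∧ C.ι (star p.n) ∈ P) := ha
      refine ⟨?_, ?_, ?_⟩
      · rcases hcase with h | h
        · left
          exact ⟨(hV2 _ hn0).2 h, hz _ hn1 (fun h' => ha' ⟨h, h'⟩)⟩
        · right
          exact ⟨hz _ hn0 (fun h' => ha' ⟨h', h⟩), (hV2 _ hn1).2 h⟩
      · by_cases hq : t ∈ P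
        · right
          refine hz _ ht2 (fun h => hb ?_)
          rw [← hT3]
          exact P.add_mem hq h
        · left
          exact hz _ hθ hq
      · have hT3' : C.σ t + C.σ (C.σ (C.σ t)) = C.ι (2 * star p.X) := by
          rw [← map_add, hT3, C.σι]
          congr 1
          rw [star_mul, mul_comm]
          rfl
        by_cases hq : C.σ t ∈ P
        · right
          refine hz _ ht3 (fun h => hc ?_)
          rw [← hT3']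
          exact P.add_mem hq h
        · left
          exact hz _ ht1 hq
    · left
      push Not at hcase
      exact ⟨hz _ hn0 hcase.1, hz _ hn1 hcase.2⟩
  exact LOC_omega _ _ _ _ _ _ hR1 hR2 hR3 hR4 hR5 hR6 hmain

end Pool.Agent.RF
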