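import Pool.Agent.helper88.RF.SpecW

set_option autoImplicit false

open Finset

/-!
# RF, row WDS: the dual map with sizes
-/

namespace Pool.Agent.RF

lemma WDS_abs_sub (x y : ℝ) : |x - y| ≤ |x| + |y| := by
  have := norm_sub_le x y
  simpa only [Real.norm_eq_abs] using this

/-- bound for `e` at one place -/
lemma WDS_e {R L C₀ K X P E : ℝ} (hR : 0 < R) (hK : R / 2 ≤ |K|)
    (hX : |X| ≤ 11 * C₀ * (R ^ 3 * L)) (hP : |P| ≤ 21 * (R ^ 3 * L)) (hE : X - P = K ^ 3 * E) :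
    |E| ≤ (88 * C₀ + 168) * L := by
  have h1 : (R / 2) ^ 3 * |E| ≤ |K| ^ 3 * |E| :=
    mul_le_mul_of_nonneg_right (pow_le_pow_left₀ (by positivity) hK 3) (abs_nonneg _)
  have h2 : |K| ^ 3 * |E| = |X - P| := by rw [hE, abs_mul, abs_pow]
  have h3 := WDS_abs_sub X P
  have h4 : (R ^ 3 / 8) * |E| ≤ (R ^ 3 / 8) * ((88 * C₀ + 168) * L) := by
    have e1 : (R / 2) ^ 3 = R ^ 3 / 8 := by ring
    rw [e1] at h1
    linarith
  exact le_of_mul_le_mul_left h4 (by positivity)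

/-- bound for `w` at one place -/
lemma WDS_w {R L C₀ K K' X E w : ℝ} (hR : 0 < R) (hL : 0 < L) (hC : 1 ≤ C₀) (hK : R / 2 ≤ |K|) (hK' : |K'| ≤ 2 * R)
    (hX : |X| ≤ 11 * C₀ * (R ^ 3 * L)) (hE : |E| ≤ (88 * C₀ + 168) * L)
    (hw : K' ^ 3 * E - 2 * X = K ^ 2 * w) :
    |w| ≤ 4 * (726 * C₀ + 1344) * (R * L) := by
  have h1 : (R / 2) ^ 2 * |w| ≤ |K| ^ 2 * |w| :=
    mul_le_mul_of_nonneg_right (pow_le_pow_left₀ (by positivity) hK 2) (abs_nonneg _)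
  have h2 : |K| ^ 2 * |w| = |K' ^ 3 * E - 2 * X| := by rw [hw, abs_mul, abs_pow]
  have h3 := WDS_abs_sub (K' ^ 3 * E) (2 * X)
  have h5 : |K' ^ 3 * E| ≤ (2 * R) ^ 3 * ((88 * C₀ + 168) * L) := by
    rw [abs_mul, abs_pow]
    exact mul_le_mul (pow_le_pow_left₀ (abs_nonneg _) hK' 3) hE (abs_nonneg _) (by positivity)
  have h6 : |2 * X| = 2 * |X| := by rw [abs_mul, abs_of_pos (by norm_num : (0:ℝ) < 2)]
  have h4 : (R ^ 2 / 4) * |w| ≤ (R ^ 2 / 4) * (4 * (726 * C₀ + 1344) * (R * L)) := by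
    have e1 : (R / 2) ^ 2 = R ^ 2 / 4 := by ring
    rw [e1] at h1
    have e2 : (R ^ 2 / 4) * (4 * (726 * C₀ + 1344) * (R * L)) =
      (2 * R) ^ 3 * ((88 * C₀ + 168) * L) + 2 * (11 * C₀ * (R ^ 3 * L)) := by ring
    rw [e2]
    linarith
  exact le_of_mul_le_mul_left h4 (by positivity)

/-- bound for `z` at one place -/
lemma WDS_z {R L G W K f g g' w w' z : ℝ} (hR : 0 < R) (hK : R / 2 ≤ |K|)
    (hW : 0 ≤ W) (hG : 0 ≤ G) (hf : |f| ≤ 2)
    (hg : |g| ≤ 2 * G) (hg' : |g'| ≤ 2 * G) (hw : |w| ≤ W * (R * L)) (hw' : |w'| ≤ W * (R * L))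
    (hz : g' * w + 2 * f * g * w' = K * z) :
    |z| ≤ 20 * W * (G * L) := by
  have h1 : (R / 2) * |z| ≤ |K| * |z| := mul_le_mul_of_nonneg_right hK (abs_nonneg _)
  have h2 : |K| * |z| = |g' * w + 2 * f * g * w'| := by rw [hz, abs_mul]
  have h3 := abs_add_le (g' * w) (2 * f * g * w')
  have h5 : |g' * w| ≤ (2 * G) * (W * (R * L)) := by
    rw [abs_mul]
    exact mul_le_mul hg' hw (abs_nonneg _) (by positivity)
  have h6 : |2 * f * g * w'| ≤ (2 * 2 * (2 * G)) * (W * (R * L)) := by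
    rw [abs_mul, abs_mul, abs_mul, abs_of_pos (by norm_num : (0:ℝ) < 2)]
    refine mul_le_mul ?_ hw' (abs_nonneg _) (by positivity)
    exact mul_le_mul (mul_le_mul_of_nonneg_left hf (by norm_num)) hg (abs_nonneg _) (by norm_num)
  have h4 : (R / 2) * |z| ≤ (R / 2) * (20 * W * (G * L)) := by
    have e2 : (R / 2) * (20 * W * (G * L)) =
      (2 * G) * (W * (R * L)) + (2 * 2 * (2 * G)) * (W * (R * L)) := by ring
    rw [e2]
    linarith
  exact le_of_mul_le_mul_left h4 (by positivity)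

/-- the rounding -/
lemma WDS_round (q N : ℤ) (x Bi : ℝ) (hx : (q : ℝ) * x = N) (hq : 0 < q)
    (hn : |x - round x| ≤ Bi) : |((N - q * round x : ℤ) : ℝ)| ≤ q * Bi := by
  push_cast
  rw [← hx, ← mul_sub, abs_mul, abs_of_pos (by exact_mod_cast hq)]
  exact mul_le_mul_of_nonneg_left hn (by exact_mod_cast hq.le)

lemma WDS_five : (2.2 : ℝ) ≤ √5 ∧ √5 ≤ 2.24 := by
  constructor
  · apply Real.le_sqrt_of_sq_le
    norm_num
  · rw [Real.sqrt_le_left (by norm_num)]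
    norm_num

lemma WDS_ph : |va ph| ≤ 1.62 ∧ |vb ph| ≤ 1.62 := by
  obtain ⟨h1, h2⟩ := WDS_five
  have e1 : va ph = (1 + √5) / 2 := by simp [va, ph]
  have e2 : vb ph = (1 - √5) / 2 := by simp [vb, ph]
  rw [e1, e2, abs_le, abs_le]
  refine ⟨⟨?_, ?_⟩, ?_, ?_⟩ <;> linarith

theorem WDS_proof (hWVA : WVA_stmt) (hWDA : WDA_stmt) (hWIN : WIN_stmt) : WDS_stmt := by
  obtain ⟨hma, hmb, had, hin, hst, hno, -⟩ := hWVA
  intro C₀ hC₀
  refine ⟨20 * (4 * (726 * C₀ + 1344)), by linarith, ?_⟩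
  intro Q B c h G L k g α β γ hKK hQ hB hG hL hco hga hgb hRQ hQL hhc u v hu hv hn1 hn2
  have hQr : (1 : ℝ) ≤ Q := by exact_mod_cast hQ
  have hBr : (1 : ℝ) ≤ B := by exact_mod_cast hB
  have hB0 : (0 : ℝ) < B := by linarith
  set R : ℝ := √(Q : ℝ) with hRdef
  have hR2 : R ^ 2 = Q := Real.sq_sqrt (by linarith)
  have hR0 : 0 < R := Real.sqrt_pos.2 (by linarith)
  set q : ℕ := k.norm.natAbs with hqdef
  have hqQ : (Q : ℝ) < q := by exact_mod_cast hKK.lo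
  have hq2Q : (q : ℝ) ≤ 2 * Q := by exact_mod_cast hKK.hi
  have hq0 : (0 : ℝ) < q := by linarith
  have hqab : |va k| * |vb k| = q := by
    rw [← abs_mul, hno, hqdef, Nat.cast_natAbs, Int.cast_abs]
  -- lower bounds for k
  have hak : R / 2 ≤ |va k| := by
    by_contra hcon
    push Not at hcon
    have h1 : |va k| * |vb k| ≤ (R / 2) * (2 * R) :=
      mul_le_mul hcon.le hKK.bb (abs_nonneg _) (by positivity)
    nlinarith
  have hbk : R / 2 ≤ |vb k| := by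
    by_contra hcon
    push Not at hcon
    have h1 : |va k| * |vb k| ≤ (2 * R) * (R / 2) :=
      mul_le_mul hKK.ba hcon.le (abs_nonneg _) (by positivity)
    nlinarith
  -- R ^ 3 ≤ L B
  have hR3 : R ^ 3 ≤ L * B := by
    have h1 : (R ^ 3) ^ 2 ≤ (L * B) ^ 2 := by
      have : (R ^ 3) ^ 2 = (Q : ℝ) ^ 3 := by rw [← hR2]; ring
      rw [this, mul_pow]
      exact hQL
    exact le_of_sq_le_sq h1 (by positivity)
  have hR6 : (Q : ℝ) ^ 3 = R ^ 3 * R ^ 3 := by rw [← hR2]; ring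
  have hQB : (Q : ℝ) ^ 3 / B ≤ R ^ 3 * L := by
    rw [div_le_iff₀ hB0, hR6, mul_assoc]
    exact mul_le_mul_of_nonneg_left hR3 (by positivity)
  have hT0 : 0 ≤ R ^ 3 * L := by positivity
  have hhcB : (h : ℝ) * c * B ≤ C₀ * (R ^ 3 * L) := by
    have h1 : (h : ℝ) * c * B ≤ C₀ * ((Q : ℝ) ^ 3 / B) := by
      rw [← mul_div_assoc, le_div_iff₀ hB0]
      calc (h : ℝ) * c * B * B = (h : ℝ) * c * (B : ℝ) ^ 2 := by ring
        _ ≤ _ := hhc
    exact h1.trans (mul_le_mul_of_nonneg_left hQB (by linarith))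
  -- the integers P₁, P₂
  set x₁ : ℝ := 2 * (h * α / (q : ℝ) ^ 3) * u + h * β / (q : ℝ) ^ 3 * v with hx₁
  set x₂ : ℝ := h * β / (q : ℝ) ^ 3 * u + 2 * (h * γ / (q : ℝ) ^ 3) * v with hx₂
  have hq3 : (q : ℝ) ^ 3 ≠ 0 := by positivity
  set N₁ : ℤ := (h : ℤ) * (2 * α * u + β * v) with hN₁
  set N₂ : ℤ := (h : ℤ) * (β * u + 2 * γ * v) with hN₂
  have hxN₁ : (((q : ℤ) ^ 3 : ℤ) : ℝ) * x₁ = N₁ := by
    rw [hx₁, hN₁]
    push_cast
    field_simp
  have hxN₂ : (((q : ℤ) ^ 3 : ℤ) : ℝ) * x₂ = N₂ := by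
    rw [hx₂, hN₂]
    push_cast
    field_simp
  have hq3p : (0 : ℤ) < (q : ℤ) ^ 3 := by
    have : (0 : ℤ) < q := by exact_mod_cast hq0
    positivity
  have hP₁ := WDS_round ((q : ℤ) ^ 3) N₁ x₁ (1 / B) hxN₁ hq3p hn1
  have hP₂ := WDS_round ((q : ℤ) ^ 3) N₂ x₂ (1 / B) hxN₂ hq3p hn2
  set P₁ : ℤ := N₁ - (q : ℤ) ^ 3 * round x₁ with hP₁def
  set P₂ : ℤ := N₂ - (q : ℤ) ^ 3 * round x₂ with hP₂def
  have hq3le : (((q : ℤ) ^ 3 : ℤ) : ℝ) * (1 / B) ≤ 8 * (R ^ 3 * L) := by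
    push_cast
    have h1 : (q : ℝ) ^ 3 ≤ 8 * (Q : ℝ) ^ 3 := by
      calc (q : ℝ) ^ 3 ≤ (2 * Q) ^ 3 := pow_le_pow_left₀ hq0.le hq2Q 3
        _ = 8 * (Q : ℝ) ^ 3 := by ring
    calc (q : ℝ) ^ 3 * (1 / B) ≤ 8 * (Q : ℝ) ^ 3 * (1 / B) :=
          mul_le_mul_of_nonneg_right h1 (by positivity)
      _ = 8 * ((Q : ℝ) ^ 3 / B) := by ring
      _ ≤ _ := mul_le_mul_of_nonneg_left hQB (by norm_num)
  have hP₁b : |(P₁ : ℝ)| ≤ 8 * (R ^ 3 * L) := hP₁.trans hq3le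
  have hP₂b : |(P₂ : ℝ)| ≤ 8 * (R ^ 3 * L) := hP₂.trans hq3le
  obtain ⟨e, w, z, he, hw, hz, hFF⟩ := hWDA k g (c : ℤ) (h : ℤ) α β γ P₁ P₂ u v hKK.pr hKK.n5 hco hRQ
    ⟨round x₁, by rw [hP₁def, hN₁]; ring⟩ ⟨round x₂, by rw [hP₂def, hN₂]; ring⟩
  set U : OO := ⟨u, v⟩ with hU
  -- sizes of U
  have hur : |(u : ℝ)| ≤ 4 * B := by exact_mod_cast hu
  have hvr : |(v : ℝ)| ≤ 4 * B := by exact_mod_cast hv
  obtain ⟨hph1, hph2⟩ := WDS_ph
  have e1 : va ph = (1 + √5) / 2 := by simp [va, ph]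
  have e2 : vb ph = (1 - √5) / 2 := by simp [vb, ph]
  have hUa : |va U| ≤ 11 * B := by
    have : va U = u + v * va ph := by rw [e1]; rfl
    rw [this]
    calc |(u : ℝ) + v * va ph| ≤ |(u : ℝ)| + |(v : ℝ) * va ph| := abs_add_le _ _
      _ ≤ 4 * B + 4 * B * 1.62 := by
          rw [abs_mul]
          exact add_le_add hur (mul_le_mul hvr hph1 (abs_nonneg _) (by positivity))
      _ ≤ 11 * B := by linarith
  have hUb : |vb U| ≤ 11 * B := by
    have : vb U = u + v * vb ph := by rw [e2]; rfl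
    rw [this]
    calc |(u : ℝ) + v * vb ph| ≤ |(u : ℝ)| + |(v : ℝ) * vb ph| := abs_add_le _ _
      _ ≤ 4 * B + 4 * B * 1.62 := by
          rw [abs_mul]
          exact add_le_add hur (mul_le_mul hvr hph2 (abs_nonneg _) (by positivity))
      _ ≤ 11 * B := by linarith
  have hXa : |(h : ℝ) * c * va U| ≤ 11 * C₀ * (R ^ 3 * L) := by
    rw [abs_mul, abs_of_nonneg (by positivity : (0:ℝ) ≤ (h : ℝ) * c)]
    calc (h : ℝ) * c * |va U| ≤ (h : ℝ) * c * (11 * B) := mul_le_mul_of_nonneg_left hUa (by positivity)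
      _ = 11 * ((h : ℝ) * c * B) := by ring
      _ ≤ 11 * (C₀ * (R ^ 3 * L)) := mul_le_mul_of_nonneg_left hhcB (by norm_num)
      _ = _ := by ring
  have hXb : |(h : ℝ) * c * vb U| ≤ 11 * C₀ * (R ^ 3 * L) := by
    rw [abs_mul, abs_of_nonneg (by positivity : (0:ℝ) ≤ (h : ℝ) * c)]
    calc (h : ℝ) * c * |vb U| ≤ (h : ℝ) * c * (11 * B) := mul_le_mul_of_nonneg_left hUb (by positivity)
      _ = 11 * ((h : ℝ) * c * B) := by ring
      _ ≤ 11 * (C₀ * (R ^ 3 * L)) := mul_le_mul_of_nonneg_left hhcB (by norm_num)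
      _ = _ := by ring
  have hPa : |va ph * (P₁ : ℝ) - P₂| ≤ 21 * (R ^ 3 * L) := by
    calc |va ph * (P₁ : ℝ) - P₂| ≤ |va ph * (P₁ : ℝ)| + |(P₂ : ℝ)| := WDS_abs_sub _ _
      _ ≤ 1.62 * (8 * (R ^ 3 * L)) + 8 * (R ^ 3 * L) := by
          rw [abs_mul]
          exact add_le_add (mul_le_mul hph1 hP₁b (abs_nonneg _) (by norm_num)) hP₂b
      _ ≤ _ := by linarith
  have hPb : |vb ph * (P₁ : ℝ) - P₂| ≤ 21 * (R ^ 3 * L) := by
    calc |vb ph * (P₁ : ℝ) - P₂| ≤ |vb ph * (P₁ : ℝ)| + |(P₂ : ℝ)| := WDS_abs_sub _ _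
      _ ≤ 1.62 * (8 * (R ^ 3 * L)) + 8 * (R ^ 3 * L) := by
          rw [abs_mul]
          exact add_le_add (mul_le_mul hph2 hP₁b (abs_nonneg _) (by norm_num)) hP₂b
      _ ≤ _ := by linarith
  -- casts
  have hca : va (((h : ℤ) : OO) * ((c : ℤ) : OO) * U) = (h : ℝ) * c * va U := by
    rw [hma, hma, (hin _).1, (hin _).1]
    push_cast
    ring
  have hcb : vb (((h : ℤ) : OO) * ((c : ℤ) : OO) * U) = (h : ℝ) * c * vb U := by
    rw [hmb, hmb, (hin _).2, (hin _).2]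
    push_cast
    ring
  have h2a : va (2 : OO) = 2 := by
    have := (hin 2).1
    push_cast at this
    exact this
  have h2b : vb (2 : OO) = 2 := by
    have := (hin 2).2
    push_cast at this
    exact this
  have hpowa : ∀ (x : OO) (n : ℕ), va (x ^ (n + 1)) = va x ^ (n + 1) := by
    intro x n
    induction n with
    | zero => rw [zero_add, pow_one, pow_one]
    | succ n ih => rw [pow_succ, hma, ih, ← pow_succ]
  have hpowb : ∀ (x : OO) (n : ℕ), vb (x ^ (n + 1)) = vb x ^ (n + 1) := by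
    intro x n
    induction n with
    | zero => rw [zero_add, pow_one, pow_one]
    | succ n ih => rw [pow_succ, hmb, ih, ← pow_succ]
  -- e
  have hea : (h : ℝ) * c * va U - (va ph * (P₁ : ℝ) - P₂) = va k ^ 3 * va e := by
    have := congrArg va he
    rw [(had _ _).2.1, hca, (had _ _).2.1, hma, (hin _).1, (hin _).1, hma, hpowa] at this
    exact this
  have heb : (h : ℝ) * c * vb U - (vb ph * (P₁ : ℝ) - P₂) = vb k ^ 3 * vb e := by
    have := congrArg vb he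
    rw [(had _ _).2.2.2, hcb, (had _ _).2.2.2, hmb, (hin _).2, (hin _).2, hmb, hpowb] at this
    exact this
  have hEa := WDS_e hR0 hak hXa hPa hea
  have hEb := WDS_e hR0 hbk hXb hPb heb
  -- w
  have hwa : vb k ^ 3 * vb e - 2 * ((h : ℝ) * c * vb U) = va k ^ 2 * va w := by
    have := congrArg va hw
    rw [(had _ _).2.1, hma, hpowa, (hst _).1, (hst _).1, hma, hma, hma, h2a, (hin _).1, (hin _).1,
      (hst _).1, hma, hpowa] at this
    rw [← this]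
    push_cast
    ring
  have hwb : va k ^ 3 * va e - 2 * ((h : ℝ) * c * va U) = vb k ^ 2 * vb w := by
    have := congrArg vb hw
    rw [(had _ _).2.2.2, hmb, hpowb, (hst _).2, (hst _).2, hmb, hmb, hmb, h2b, (hin _).2, (hin _).2,
      (hst _).2, hmb, hpowb] at this
    rw [← this]
    push_cast
    ring
  have hWa := WDS_w hR0 hL hC₀ hak hKK.bb hXb hEb hwa
  have hWb := WDS_w hR0 hL hC₀ hbk hKK.ba hXa hEa hwb
  -- z
  have hza : vb g * va w + 2 * va ph * va g * vb w = va k * va z := by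
    have := congrArg va hz
    rw [(had _ _).1, hma, (hst _).1, hma, hma, hma, h2a, (hst _).1, hma] at this
    exact this
  have hzb : va g * vb w + 2 * vb ph * vb g * va w = vb k * vb z := by
    have := congrArg vb hz
    rw [(had _ _).2.2.1, hmb, (hst _).2, hmb, hmb, hmb, h2b, (hst _).2, hmb] at this
    exact this
  have hW0 : 0 ≤ 4 * (726 * C₀ + 1344) := by linarith
  have hZa := WDS_z hR0 hak hW0 (by linarith) (hph1.trans (by norm_num)) hga hgb hWa hWb hza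
  have hZb := WDS_z hR0 hbk hW0 (by linarith) (hph2.trans (by norm_num)) hgb hga hWb hWa hzb
  have hCC : (88 * C₀ + 168) * L ≤ 20 * (4 * (726 * C₀ + 1344)) * L :=
    mul_le_mul_of_nonneg_right (by linarith) hL.le
  refine ⟨e, z, hEa.trans hCC, hEb.trans hCC, hZa, hZb, ?_⟩
  rw [← hFF]
  push_cast
  ring

end Pool.Agent.RF
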